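import Mathlib
import Pool.Agent.H3.AmalD

set_option autoImplicit false

theorem Pool.Agent.Results.MP_d8fac8_al.Q2No.result :
    ¬ Pool.Agent.H3.Amal.AmalBase (Pool.Agent.H3.Amal.ofAdd (ℤ ×ₗ ℤ)) :=
  Pool.Agent.H3.Amal.q2
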